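import Pool.Agent.H6.G9.Targets2

/-!
# Theorem (H0), MP_c59857_nt: absolute constants for all lengths, statements of the last step
-/

set_option autoImplicit false

namespace Pool.Agent.H6.G9

open Finset Pool.Agent.H6.N4D Pool.Agent.H93 Pool.Agent.H93.GS

/-- EU1. The loss of energy from a bounded scale to the powers of the logarithm: `B` is absolute,
`e` depends only on `ε`. -/
def T_EU1 : Prop := ∃ B : ℕ, 1 ≤ B ∧ ∀ ε : ℝ, 0 < ε → ∃ e : ℝ, 0 < e ∧ ∀ th : ℝ, 0 < th → th ≤ 1 →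
  ∀ R : ℕ, ∃ s₀ : ℕ, ∀ s, s₀ ≤ s → ∃ X₀ : ℕ, ∀ (X : ℕ) (lam : ℕ → ℝ), X₀ ≤ X → Lio lam →
    EB.Base lam R (2 ^ s) e X → ∀ k₀ k : ℕ, B * s ≤ k₀ → k₀ ≤ k → (16 : ℝ) ^ k ≤ Real.log X →
      te th lam X k₀ - ε ≤ te th lam X k

/-- GH0. The final theorem: absolute constants, all lengths. -/
def T_GH0 : Prop := ∃ (c : ℝ) (K : ℕ), 0 < c ∧ 1 ≤ K ∧ ∀ R : ℕ, ∃ H₀ : ℕ, ∀ (X H : ℕ)
  (lam : ℕ → ℝ), H₀ ≤ H → H ^ K ≤ X → Lio lam →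
  ∀ (b : ℕ → ℕ → ℂ) (β : ℕ → ℕ → ℝ), (∀ n r, ‖b n r‖ ≤ 1) →
    c * Real.log X < EB.lg X (fun n => (∑ m ∈ Ioc n (n + H),
      ‖(lam m : ℂ) - ∑ r ∈ range R, b n r * ee (β n r * m)‖ ^ 2) / H)

end Pool.Agent.H6.G9
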