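import Pool.Agent.H6.GS2.Targets
import Pool.Agent.H3.BT.Targets

/-!
# Theorem (H), MP_c59857_nt: the 99 per cent form of theorem (G), statements

Absolute constants: nothing in front of the tests depends on the threshold `th`.
-/

set_option autoImplicit false

namespace Pool.Agent.H6.G9

open Finset Pool.Agent.H6.N4D Pool.Agent.H93 Pool.Agent.H93.GS Pool.Agent.H6.GS2

/-! ## definitions -/

/-- the sum of exponentials of the prime `q` in a family -/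
noncomputable def fam (J : ℕ) (φ : ℕ → ℕ → ℝ) (u : ℕ → ℕ → ℂ) (q : ℕ) : Ex :=
  ⟨J, fun j => u j q, fun j => φ j q⟩

/-- two frequencies are very near to each other, or far from each other modulo `1 / q` -/
def Sp (m q : ℕ) (x y : ℝ) : Prop := nd (x - y) ≤ 2 ^ (m / 90) / 2 ^ m ∨
  ∀ t : ℤ, (2 : ℝ) ^ (m / 100) / 2 ^ m ≤ nd (x - y - (t : ℝ) / q)

/-- admissible families of the level `m`: `J` frequencies for every prime, coefficients at most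
`A` -/
structure Adm (m J : ℕ) (A : ℝ) (φ : ℕ → ℕ → ℝ) (u : ℕ → ℕ → ℂ) : Prop where
  nc : ∀ j < J, Pool.Agent.H3.BT.NCt m (φ j)
  cb : ∀ j q, ‖u j q‖ ≤ A
  cl : ∀ q ∈ EB.QQ m, ∀ i < J, ∀ j < J, u i q ≠ 0 → u j q ≠ 0 → Sp m q (φ i q) (φ j q)

/-- the functional of a family: twice the tests minus the mean squares -/
noncomputable def fv (lam : ℕ → ℝ) (m n J : ℕ) (φ : ℕ → ℕ → ℝ) (u : ℕ → ℕ → ℂ) : ℝ :=
  ∑ q ∈ EB.QQ m, 1 / (q : ℝ) * (2 * (tx lam q (2 ^ m) n (fam J φ u q)).re -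
    ar 1 (2 ^ m) n (fun x => ‖(fam J φ u q).f x‖ ^ 2))

/-- the largest value of the functional on the window -/
noncomputable def UB (lam : ℕ → ℝ) (J : ℕ) (A : ℝ) (m n : ℕ) : ℝ :=
  sSup {x | ∃ (φ : ℕ → ℕ → ℝ) (u : ℕ → ℕ → ℂ), Adm m J A φ u ∧ x = fv lam m n J φ u}

/-- the difference of two sums -/
noncomputable def sb (h g : Ex) : Ex :=
  ⟨h.k + g.k, fun i => if i < h.k then h.c i else -g.c (i - h.k),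
    fun i => if i < h.k then h.a i else g.a (i - h.k)⟩

/-! ## A. frequencies and lifts -/

/-- UBB. Use of `UB`. -/
def T_UBB : Prop := ∀ (J : ℕ) (A : ℝ), 0 ≤ A → ∃ (m₁ : ℕ) (C : ℝ), 0 < C ∧ ∀ (lam : ℕ → ℝ)
  (m n : ℕ), m₁ ≤ m → (∀ n, |lam n| ≤ 1) → 0 ≤ UB lam J A m n ∧ UB lam J A m n ≤ C ∧
    (∀ φ u, Adm m J A φ u → fv lam m n J φ u ≤ UB lam J A m n) ∧
    (∀ ε : ℝ, 0 < ε → ∃ φ u, Adm m J A φ u ∧ UB lam J A m n ≤ fv lam m n J φ u + ε) ∧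
    ∀ (J' : ℕ) (A' : ℝ), J' ≤ J → 0 ≤ A' → A' ≤ A → UB lam J' A' m n ≤ UB lam J A m n

/-- LF0. Frequencies near to a constant have few bad quadruples. -/
def T_LF0 : Prop := ∃ m₁ : ℕ, ∀ (m : ℕ) (a : ℝ) (α : ℕ → ℝ), m₁ ≤ m →
  (∀ q ∈ EB.QQ m, nd (α q - a) ≤ 4 * 2 ^ (m / 50) / 2 ^ m) → Pool.Agent.H3.BT.NCt m α

/-- LFC. Every choice of frequencies has lifts such that all frequencies near to them have few bad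
quadruples. -/
def T_LFC : Prop := ∃ m₁ : ℕ, ∀ (m : ℕ) (β : ℕ → ℝ), m₁ ≤ m → ∃ z : ℕ → ℤ, ∀ α : ℕ → ℝ,
  (∀ q ∈ EB.QQ m, nd (α q - (β q + (z q : ℝ) / q)) ≤ 4 * 2 ^ (m / 50) / 2 ^ m) →
    Pool.Agent.H3.BT.NCt m α

/-- LCF. Lifts in clusters. `b`: frequencies; `c`: rough lifts of `b`; `a`: fixed frequencies. The
value `f l` names the anchor of `l`: `a (f l)` if `f l < r`, `c (f l - r)` otherwise. -/
def T_LCF : Prop := ∀ (q k r : ℕ) (η δ : ℝ) (b c a : ℕ → ℝ), 1 ≤ q → 0 < η → 0 ≤ δ →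
  8 * (k + 1) * η * q < 1 → (∀ l < k, ∃ s : ℤ, nd (c l - b l - (s : ℝ) / q) ≤ δ) →
  (∀ i < r, ∀ j < r, ∀ s : ℤ, ¬ ((q : ℤ) ∣ s) → 4 * (k + 1) * η < nd (a i - a j - (s : ℝ) / q)) →
  ∃ (α : ℕ → ℝ) (s : ℕ → ℤ) (f : ℕ → ℕ), (∀ l < k, α l = b l + (s l : ℝ) / q) ∧
    (∀ l < k, (f l < r ∧ nd (α l - a (f l)) ≤ (k + 1) * η) ∨
      (r ≤ f l ∧ f l < r + k ∧ nd (α l - c (f l - r)) ≤ δ + (k + 1) * η)) ∧
    (∀ l < k, ∀ l' < k, nd (α l - α l') ≤ 2 * (k + 1) * η ∨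
      ∀ t : ℤ, η ≤ nd (α l - α l' - (t : ℝ) / q)) ∧
    ∀ l < k, ∀ i < r, nd (α l - a i) ≤ 2 * (k + 1) * η ∨
      ∀ t : ℤ, η ≤ nd (α l - a i - (t : ℝ) / q)

/-- NRS. The mean squares over the multiples of a prime and over the whole window. -/
def T_NRS : Prop := ∃ m₁ : ℕ, ∀ (m N n q : ℕ) (F : Ex), m₁ ≤ m → 2 ^ m ≤ 2 * N → q ∈ EB.QQ m →
  (∀ i < F.k, ∀ j < F.k, F.c i ≠ 0 → F.c j ≠ 0 → Sp m q (F.a i) (F.a j)) →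
  |nrm q N n F| ≤ F.nm ^ 2 * (1 / 2) ^ (m / 300)

/-! ## A. one window -/

/-- UX1. The energy on the multiples of `q`, one prime; `h'` is a lift of the optimal sum `h`. -/
def T_UX1 : Prop := ∀ (th : ℝ) (lam : ℕ → ℝ) (q N n : ℕ) (g h h' : Ex), 0 < th → 1 ≤ q → 1 ≤ N →
  Opt th lam 1 N n g → Opt th lam q N n h → h'.k = h.k → (∀ i < h.k, h'.c i = h.c i) →
  (∀ i < h.k, ∃ s : ℤ, h'.a i = h.a i + (s : ℝ) / q) →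
  En th lam q N n ≤ En th lam 1 N n + lin lam q N n g + 2 * (tx lam q N n (sb h' g)).re -
    ar 1 N n (fun x => ‖(sb h' g).f x‖ ^ 2) - nrm q N n h'

/-- UXC. The energies on the multiples of the primes of the level, one window. -/
def T_UXC : Prop := ∀ th : ℝ, 0 < th → th ≤ 1 → ∃ (κ A C : ℝ) (p₀ J m₁ : ℕ), 0 < κ ∧ 0 < A ∧
  0 < C ∧ 4 * p₀ ≤ m₁ ∧ ∀ (lam : ℕ → ℝ) (m n : ℕ) (g : Ex), m₁ ≤ m → (∀ m, |lam m| ≤ 1) →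
  Opt th lam 1 (2 ^ m) n g → Dst 1 g → gap th lam (2 ^ p₀) (2 ^ (m - p₀)) n ≤ κ →
  ∑ q ∈ EB.QQ m, 1 / (q : ℝ) * (En th lam q (2 ^ m) n - En th lam 1 (2 ^ m) n -
      lin lam q (2 ^ m) n g) ≤
    UB lam J A m n + C * (∑ q ∈ EB.QQ m, 1 / (q : ℝ) *
      EB.ind (κ < gapq th lam q (2 ^ p₀) (2 ^ (m - p₀)) n) + (1 / 2) ^ (m / 1000))

/-- U2. The linear terms of two sums. -/
def T_U2 : Prop := ∀ (k : ℕ) (B : ℝ), 0 ≤ B → ∃ (A C : ℝ) (J m₁ : ℕ), 0 < A ∧ 0 < C ∧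
  ∀ (η : ℝ) (lam : ℕ → ℝ) (m n : ℕ) (g h : Ex), 0 < η → η ≤ 1 → m₁ ≤ m → (∀ m, |lam m| ≤ 1) →
  g.k ≤ k → h.k ≤ k → g.nm ≤ B → h.nm ≤ B →
  ∑ q ∈ EB.QQ m, 1 / (q : ℝ) * |lin lam q (2 ^ m) n g - lin lam q (2 ^ m) n h| ≤
    η * (∑ q ∈ EB.QQ m, 1 / (q : ℝ)) * d2 1 (2 ^ m) n g h + 1 / η * UB lam J A m n +
      C * (1 / 2) ^ (m / 1000)

/-- ONU. A window of length `2 ^ (p + m)` and its pieces of length `2 ^ m`. -/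
def T_ONU : Prop := ∀ th : ℝ, 0 < th → th ≤ 1 → ∃ (κ A C : ℝ) (p₀ J m₁ : ℕ), 0 < κ ∧ 0 < A ∧
  0 < C ∧ 4 * p₀ ≤ m₁ ∧ ∀ (η : ℝ) (p m n : ℕ) (lam : ℕ → ℝ), 0 < η → η ≤ 1 → m₁ ≤ m →
    (∀ m, |lam m| ≤ 1) →
    ∑ q ∈ EB.QQ m, 1 / (q : ℝ) * gapq th lam q (2 ^ p) (2 ^ m) n ≤
      (1 + η) * (∑ q ∈ EB.QQ m, 1 / (q : ℝ)) * gap th lam (2 ^ p) (2 ^ m) n +
      2 / η * ((∑ j ∈ range (2 ^ p), UB lam J A m (n + j * 2 ^ m)) / (2 ^ p : ℕ)) +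
      C / η * ((∑ j ∈ range (2 ^ p),
          (EB.ind (κ < gap th lam (2 ^ p₀) (2 ^ (m - p₀)) (n + j * 2 ^ m)) +
          ∑ q ∈ EB.QQ m, 1 / (q : ℝ) *
            EB.ind (κ < gapq th lam q (2 ^ p₀) (2 ^ (m - p₀)) (n + j * 2 ^ m)))) / (2 ^ p : ℕ) +
        EB.ind (κ < gap th lam (2 ^ p₀) (2 ^ (p + m - p₀)) n) + (1 / 2) ^ (m / 1000))

/-! ## B. one level, logarithmic means -/

/-- LVU. The inequality of one level; the constant `C₀` is absolute. -/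
def T_LVU : Prop := ∃ C₀ : ℝ, 0 < C₀ ∧ ∀ th : ℝ, 0 < th → th ≤ 1 → ∃ (A C : ℝ) (p₀ J m₁ : ℕ),
  0 < A ∧ 0 < C ∧ 4 * p₀ ≤ m₁ ∧ ∀ (η : ℝ) (D X m : ℕ) (lam : ℕ → ℝ), 0 < η → η ≤ 1 → 2 ≤ D →
    3 ≤ X → m₁ ≤ m → Lio lam →
    EB.lg X (fun n => En th lam 1 (2 ^ (m - m / 500)) n) -
        EB.lg X (fun n => En th lam 1 (2 ^ (D * m - m / 100)) n) ≤
      (1 + η) * (EB.lg X (fun n => En th lam 1 (2 ^ m) n) -
        EB.lg X (fun n => En th lam 1 (2 ^ (D * m)) n)) +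
      C₀ / η * EB.lg X (fun n => UB lam J A m n) +
      C / η * (gm th lam X p₀ m + gmq th lam X p₀ m + gm th lam X p₀ (D * m) +
        (1 / 2) ^ (m / 2000) * Real.log X + 3 * (D * m + 1))

/-- GM2. The defects at the scales `D m` are summable. -/
def T_GMD : Prop := ∀ (th : ℝ) (p₀ D : ℕ), 0 < th → th ≤ 1 → 2 ≤ D → ∃ C : ℝ, 0 < C ∧
  ∀ (X m₀ me : ℕ) (lam : ℕ → ℝ), 3 ≤ X → (∀ n, |lam n| ≤ 1) → 1000 * (p₀ + 1) ≤ m₀ → m₀ ≤ me →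
    ∑ m ∈ Icc m₀ me, 1 / (m : ℝ) * gm th lam X p₀ (D * m) ≤
      C / m₀ * Real.log X + C * (me + 1) * (1 + Real.log me)

/-! ## C. the inequality of Bessel for families -/

/-- BSU. The inequality of Bessel for the functional `UB`; the constant `C₀` is absolute. -/
def T_BSU : Prop := ∃ (B : ℕ) (C₀ : ℝ), 1 ≤ B ∧ 0 < C₀ ∧ ∀ (R J : ℕ) (A : ℝ), 0 ≤ A →
  ∃ s₀ : ℕ, ∀ (s X K k₁ : ℕ) (lam : ℕ → ℝ) (e : ℝ) (m : ℕ → ℕ), s₀ ≤ s → 3 ≤ X → 0 ≤ e →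
    (∀ n, |lam n| ≤ 1) → EB.Base lam R (2 ^ s) e X → K ≤ 2 ^ (s / B) →
    B * s ≤ m 0 → (∀ i, i + 1 < K → B * m i ≤ m (i + 1)) → (∀ i < K, m i ≤ k₁) →
    ∑ i ∈ range K, EB.lg X (fun n => UB lam J A (m i) n) ≤
      (C₀ * e + (1 / 2) ^ (s / B)) * Real.log X + C₀ * K * (k₁ + 1)

/-! ## D. the whole range of scales -/

/-- EU. The total loss of energy is at most `1 / 4`; `e₀` is absolute. -/
def T_EU : Prop := ∃ (B : ℕ) (e₀ : ℝ), 1 ≤ B ∧ 0 < e₀ ∧ ∀ th : ℝ, 0 < th → th ≤ 1 → ∀ R : ℕ,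
  ∃ s₀ X₀ : ℕ, ∀ (s X : ℕ) (lam : ℕ → ℝ), s₀ ≤ s → X₀ ≤ X → Lio lam →
    Real.log (Real.log X) ≤ 2 ^ (s / B) → EB.Base lam R (2 ^ s) e₀ X →
    ∀ k₀ k : ℕ, B * s ≤ k₀ → k₀ ≤ k → (k : ℝ) ≤ 2 * Real.log X ^ (24 / 25 : ℝ) →
      te th lam X k₀ - 1 / 4 ≤ te th lam X k

/-- E3R. The conclusion of section 3 on a range of scales of bounded ratio near the top. -/
def T_E3R : Prop := ∀ th c : ℝ, 0 < th → th ≤ 1 → 0 < c → ∃ (ε C : ℝ) (D X₀ : ℕ), 0 < ε ∧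
  0 < C ∧ 1 ≤ D ∧ ∀ (X a : ℕ) (lam : ℕ → ℝ), X₀ ≤ X → Lio lam →
    C * Real.log X ^ (19 / 20 : ℝ) ≤ a → (D : ℝ) * a ≤ Real.log X ^ (24 / 25 : ℝ) →
    (∀ m : ℕ, a ≤ m → m ≤ D * a → Hm th ε lam X m) →
    (∀ k l : ℕ, a ≤ k → k ≤ l → l ≤ 2 * D * a → te th lam X k - ε ≤ te th lam X l) →
    te th lam X a < c

/-- PGN. A good range near the top, for every function. -/
def T_PGN : Prop := ∀ (th ε C : ℝ) (D : ℕ), 0 < th → th ≤ 1 → 0 < ε → 0 < C → 1 ≤ D →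
  ∃ X₀ : ℕ, ∀ (X : ℕ) (lam : ℕ → ℝ), X₀ ≤ X → Lio lam → ∃ a : ℕ,
    C * Real.log X ^ (19 / 20 : ℝ) ≤ a ∧ (D : ℝ) * a ≤ Real.log X ^ (24 / 25 : ℝ) ∧
    (∀ m : ℕ, a ≤ m → m ≤ D * a → Hm th ε lam X m) ∧
    ∀ k l : ℕ, a ≤ k → k ≤ l → l ≤ 2 * D * a → te th lam X k - ε ≤ te th lam X l

/-- TOP. At the top the energy is small, for every function with the properties of Liouville's
function. -/
def T_TOP : Prop := ∀ th c : ℝ, 0 < th → th ≤ 1 → 0 < c → ∃ X₀ : ℕ, ∀ (X : ℕ) (lam : ℕ → ℝ),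
  X₀ ≤ X → Lio lam → ∃ a : ℕ, Real.log X ^ (1 / 2 : ℝ) ≤ a ∧
    (a : ℝ) ≤ Real.log X ^ (24 / 25 : ℝ) ∧ te th lam X a < c

/-- G99. The final theorem: an absolute constant, an absolute range of lengths. -/
def T_G99 : Prop := ∃ (c : ℝ) (K : ℕ), 0 < c ∧ 1 ≤ K ∧ ∀ R : ℕ, ∃ H₀ : ℕ, ∀ (X H : ℕ)
  (lam : ℕ → ℝ), H₀ ≤ H → Real.log (Real.log X) ^ K ≤ H → H ^ K ≤ X → Lio lam →
  ∀ (b : ℕ → ℕ → ℂ) (β : ℕ → ℕ → ℝ), (∀ n r, ‖b n r‖ ≤ 1) →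
    c * Real.log X < EB.lg X (fun n => (∑ m ∈ Ioc n (n + H),
      ‖(lam m : ℂ) - ∑ r ∈ range R, b n r * ee (β n r * m)‖ ^ 2) / H)

end Pool.Agent.H6.G9
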