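import Pool.Agent.H6.G9.Targets2
import Pool.Agent.H93.GS.Asm

/-!
# Theorem (H) for all iterated logarithms: the chain of the stages
-/

set_option autoImplicit false

namespace Pool.Agent.H6.G9

open Finset Pool.Agent.H6.N4D Pool.Agent.H93 Pool.Agent.H93.GS Filter

/-! ## iterated logarithms -/

lemma itlog_tendsto (T : ℕ) : Tendsto (fun x : ℝ => Real.log^[T] x) atTop atTop := by
  induction T with
  | zero => exact tendsto_id
  | succ T ih =>
    have h : (fun x : ℝ => Real.log^[T + 1] x) = fun x => Real.log (Real.log^[T] x) := by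
      funext x
      exact Function.iterate_succ_apply' Real.log T x
    rw [h]
    exact Real.tendsto_log_atTop.comp ih

lemma itlog_le (T : ℕ) : ∀ᶠ x : ℝ in atTop, ∀ j ≤ T, Real.log^[j + 1] x ≤ Real.log^[j] x := by
  induction T with
  | zero =>
    filter_upwards [eventually_gt_atTop 0] with x hx j hj
    obtain rfl : j = 0 := by omega
    have := Real.log_le_sub_one_of_pos hx
    simp only [zero_add, Function.iterate_one, Function.iterate_zero, id_eq]
    linarith
  | succ T ih =>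
    filter_upwards [ih, (itlog_tendsto (T + 1)).eventually_gt_atTop 0] with x hx hx2 j hj
    rcases Nat.lt_or_ge j (T + 1) with h | h
    · exact hx j (by omega)
    · obtain rfl : j = T + 1 := by omega
      rw [Function.iterate_succ_apply' Real.log (T + 1) x]
      have := Real.log_le_sub_one_of_pos hx2
      linarith

/-- for large numbers the iterated logarithms decrease -/
lemma itlog_le2 (T : ℕ) (hT : 2 ≤ T) : ∀ᶠ x : ℝ in atTop,
    Real.log^[T] x ≤ Real.log (Real.log x) := by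
  filter_upwards [itlog_le T] with x hx
  have h : ∀ i, 2 + i ≤ T → Real.log^[2 + i] x ≤ Real.log (Real.log x) := by
    intro i
    induction i with
    | zero => intro _; simp
    | succ i ih =>
      intro hi
      exact (hx (2 + i) (by omega)).trans (ih (by omega))
  have := h (T - 2) (by omega)
  rwa [show 2 + (T - 2) = T by omega] at this

lemma natev {p : ℝ → Prop} (h : ∀ᶠ x : ℝ in atTop, p x) : ∃ X₀ : ℕ, ∀ X : ℕ, X₀ ≤ X → p X :=
  eventually_atTop.1 (tendsto_natCast_atTop_atTop.eventually h)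

/-- numerals for the bottom scale -/
lemma num_s (B : ℕ) (hB : 1 ≤ B) : ∃ s₁ : ℕ, B + 1 ≤ s₁ ∧ ∀ s : ℕ, s₁ ≤ s →
    2 * (s : ℝ) ≤ 2 ^ (s / B) ∧ (B : ℝ) * (Real.exp s + 1 + B * s) ≤ Real.exp (2 * s) := by
  have h1 : ∀ᶠ s : ℕ in atTop, 3 * ((s : ℝ) + 1) ≤ 2 ^ (s / B) := ev_pow B hB
  have h2 : ∀ᶠ s : ℕ in atTop, (B : ℝ) * (2 + B) ≤ (s : ℝ) :=
    (tendsto_natCast_atTop_atTop (R := ℝ)).eventually_ge_atTop _
  obtain ⟨s₁, hs⟩ := eventually_atTop.1 (h1.and h2)
  refine ⟨s₁ + B + 1, by omega, fun s hs1 => ?_⟩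
  obtain ⟨h3, h4⟩ := hs s (by omega)
  have hs0 : (0 : ℝ) ≤ s := Nat.cast_nonneg _
  have hB0 : (0 : ℝ) ≤ B := Nat.cast_nonneg _
  refine ⟨by linarith, ?_⟩
  have h5 : (s : ℝ) + 1 ≤ Real.exp s := Real.add_one_le_exp _
  have h6 : Real.exp (2 * s) = Real.exp s * Real.exp s := by rw [← Real.exp_add]; ring_nf
  have h7 : Real.exp s + 1 + B * s ≤ (2 + B) * Real.exp s := by nlinarith
  rw [h6]
  calc (B : ℝ) * (Real.exp s + 1 + B * s) ≤ B * ((2 + B) * Real.exp s) :=
        mul_le_mul_of_nonneg_left h7 hB0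
    _ = (B * (2 + B)) * Real.exp s := by ring
    _ ≤ Real.exp s * Real.exp s := by
        apply mul_le_mul_of_nonneg_right _ (Real.exp_pos _).le
        linarith

/-- numerals for the double logarithm -/
lemma num_X (B : ℕ) : ∀ᶠ x : ℝ in atTop, ((B + 1) * Real.log (Real.log x) + 1) ^ 4 ≤ Real.log x ∧
    (B : ℝ) ≤ Real.log x ^ (1 / 2 : ℝ) := by
  have h1 : ∀ᶠ y : ℝ in atTop, ((B + 1) * Real.log y + 1) ^ 4 ≤ y := by
    have h2 := (isLittleO_log_rpow_atTop (r := 1 / 4) (by norm_num)).def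
      (show (0 : ℝ) < 1 / (2 * ((B : ℝ) + 1)) by positivity)
    have h3 : ∀ᶠ y : ℝ in atTop, (2 : ℝ) ≤ y ^ (1 / 4 : ℝ) :=
      (tendsto_rpow_atTop (by norm_num : (0 : ℝ) < 1 / 4)).eventually_ge_atTop 2
    filter_upwards [h2, h3, eventually_ge_atTop 1] with y h4 h5 h6
    have h7 : 0 ≤ Real.log y := Real.log_nonneg h6
    have h8 : 0 ≤ y ^ (1 / 4 : ℝ) := Real.rpow_nonneg (by linarith) _
    rw [Real.norm_of_nonneg h7, Real.norm_of_nonneg h8] at h4
    have hB : (0 : ℝ) < (B : ℝ) + 1 := by positivity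
    have h9 : ((B : ℝ) + 1) * Real.log y ≤ 1 / 2 * y ^ (1 / 4 : ℝ) := by
      calc ((B : ℝ) + 1) * Real.log y ≤
          (B + 1) * (1 / (2 * ((B : ℝ) + 1)) * y ^ (1 / 4 : ℝ)) :=
            mul_le_mul_of_nonneg_left h4 hB.le
        _ = 1 / 2 * y ^ (1 / 4 : ℝ) := by field_simp
    have h10 : ((B : ℝ) + 1) * Real.log y + 1 ≤ y ^ (1 / 4 : ℝ) := by linarith
    calc (((B : ℝ) + 1) * Real.log y + 1) ^ 4 ≤ (y ^ (1 / 4 : ℝ)) ^ 4 :=
          pow_le_pow_left₀ (by positivity) h10 4
      _ = y := by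
          rw [← Real.rpow_natCast, ← Real.rpow_mul (by linarith)]
          norm_num
  have h2 : ∀ᶠ y : ℝ in atTop, (B : ℝ) ≤ y ^ (1 / 2 : ℝ) :=
    (tendsto_rpow_atTop (by norm_num : (0 : ℝ) < 1 / 2)).eventually_ge_atTop _
  exact Real.tendsto_log_atTop.eventually (h1.and h2)

/-- the top of the range is large -/
lemma top_le {x s : ℝ} (hs : 1 ≤ s) (h : s ^ 4 ≤ Real.log x) :
    s ^ 2 ≤ Real.log x ^ (1 / 2 : ℝ) := by
  have h0 : 0 ≤ Real.log x := le_trans (by positivity) h
  have h1 : Real.log x ^ (1 / 2 : ℝ) = √(Real.log x) := (Real.sqrt_eq_rpow _).symm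
  rw [h1]
  apply Real.le_sqrt_of_sq_le
  calc (s ^ 2) ^ 2 = s ^ 4 := by ring
    _ ≤ _ := h

theorem pf_QT (hE : T_EUS) (hT : T_TOP) : T_QT := by
  obtain ⟨B, hB, hE⟩ := hE
  refine ⟨B, hB, ?_⟩
  obtain ⟨s₁, hs₁, hs₁'⟩ := num_s B hB
  intro T hT2
  induction T, hT2 using Nat.le_induction with
  | base =>
    obtain ⟨e, he, hE⟩ := hE (1 / 4) (by norm_num)
    refine ⟨min e (1 / 2), lt_min he (by norm_num), (min_le_right _ _).trans (by norm_num), ?_⟩
    intro th hth hth1 R
    obtain ⟨s₀, X₀, hE⟩ := hE th hth hth1 R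
    obtain ⟨X₁, hT⟩ := hT th (1 / 4) hth hth1 (by norm_num)
    refine ⟨s₀ + X₀ + X₁ + s₁ + 3, fun s X lam hs hll hsX hL hBase => ?_⟩
    simp only [Function.iterate_succ, Function.iterate_zero, Function.comp_apply, id_eq] at hll
    have hs1 : (1 : ℝ) ≤ s := by exact_mod_cast (by omega : 1 ≤ s)
    have hsX1 : (s : ℝ) ≤ Real.log X := by
      calc (s : ℝ) = (s : ℝ) ^ 1 := (pow_one _).symm
        _ ≤ (s : ℝ) ^ 4 := pow_le_pow_right₀ hs1 (by norm_num)
        _ ≤ _ := hsX
    have hXs : s ≤ X := by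
      have h1 : Real.log X ≤ X := by
        rcases Nat.eq_zero_or_pos X with h | h
        · rw [h]; simp
        · have := Real.log_le_sub_one_of_pos (show (0 : ℝ) < X by exact_mod_cast h)
          linarith
      exact_mod_cast hsX1.trans h1
    have hX3 : 3 ≤ X := by omega
    obtain ⟨a, ha1, ha2, ha3⟩ := hT X lam (by omega) hL
    have hlog : 0 < Real.log X := by linarith
    -- the number of the levels
    have hBs : B * s ≤ a := by
      have h1 := top_le hs1 hsX
      have h2 : ((B * s : ℕ) : ℝ) ≤ a := by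
        refine le_trans ?_ (h1.trans ha1)
        push_cast
        have : (B : ℝ) ≤ s := by exact_mod_cast (by omega : B ≤ s)
        nlinarith
      exact_mod_cast h2
    have ha0 : 0 < a := by
      have : 0 < B * s := Nat.mul_pos (by omega) (by omega)
      omega
    have hla : Real.log a ≤ 2 ^ (s / B) := by
      have h1 : Real.log (a : ℝ) ≤ Real.log (Real.log X ^ (24 / 25 : ℝ)) :=
        Real.log_le_log (by exact_mod_cast ha0) ha2
      rw [Real.log_rpow hlog] at h1
      have h2 : 0 ≤ (s : ℝ) := by linarith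
      have h3 := (hs₁' s (by omega)).1
      nlinarith
    have hp0 : 0 ≤ Real.log X ^ (24 / 25 : ℝ) := Real.rpow_nonneg hlog.le _
    have hfin := hE s X a lam (by omega) (by omega) hL hla
      (base_mono lam _ _ X _ _ hX3 (min_le_left _ _) hBase) (B * s) a le_rfl hBs le_rfl
      (by linarith)
    have : min e (1 / 2) ≤ 1 / 2 := min_le_right _ _
    linarith
  | succ T hT2 ih =>
    obtain ⟨e₁, he₁, he₁1, ih⟩ := ih
    obtain ⟨e₂, he₂, hE⟩ := hE (e₁ / 4) (by positivity)
    refine ⟨min e₂ (e₁ / 4), lt_min he₂ (by positivity),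
      (min_le_right _ _).trans (by linarith), ?_⟩
    intro th hth hth1 R
    obtain ⟨s₂, X₂, hE⟩ := hE th hth hth1 R
    obtain ⟨R', X₃, hlnk⟩ := lnk2 th (e₁ / 2) hth (by positivity)
    obtain ⟨s₃, ih1⟩ := ih th hth hth1 R
    obtain ⟨s₄, ih2⟩ := ih th hth hth1 R'
    obtain ⟨X₄, hX₄⟩ := natev (itlog_le2 T hT2)
    obtain ⟨X₅, hX₅⟩ := natev (num_X B)
    refine ⟨s₁ + s₂ + s₃ + s₄ + X₂ + X₃ + X₄ + X₅ + 3, fun s X lam hs hll hsX hL hBase => ?_⟩
    have hs1 : (1 : ℝ) ≤ s := by exact_mod_cast (by omega : 1 ≤ s)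
    have hsX1 : (s : ℝ) ≤ Real.log X := by
      calc (s : ℝ) = (s : ℝ) ^ 1 := (pow_one _).symm
        _ ≤ (s : ℝ) ^ 4 := pow_le_pow_right₀ hs1 (by norm_num)
        _ ≤ _ := hsX
    have hXs : s ≤ X := by
      have h1 : Real.log X ≤ X := by
        rcases Nat.eq_zero_or_pos X with h | h
        · rw [h]; simp
        · have := Real.log_le_sub_one_of_pos (show (0 : ℝ) < X by exact_mod_cast h)
          linarith
      exact_mod_cast hsX1.trans h1
    have hX3 : 3 ≤ X := by omega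
    have hlog : 0 < Real.log X := by linarith
    have hm1 : min e₂ (e₁ / 4) ≤ e₂ := min_le_left _ _
    have hm2 : min e₂ (e₁ / 4) ≤ e₁ / 4 := min_le_right _ _
    by_contra hcon
    rw [not_lt] at hcon
    rcases le_or_gt (Real.log^[T] (X : ℝ)) s with hc | hc
    · -- the previous range
      have h1 := ih1 s X lam (by omega) hc hsX hL
        (base_mono lam _ _ X _ _ hX3 (by linarith) hBase)
      linarith
    · -- a new base
      obtain ⟨y, hy⟩ : ∃ y : ℝ, y = Real.log^[T] (X : ℝ) := ⟨_, rfl⟩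
      rw [← hy] at hc
      have hy0 : 0 < y := by linarith
      have hys : y ≤ Real.exp s := by
        rw [Function.iterate_succ_apply', ← hy] at hll
        calc y = Real.exp (Real.log y) := (Real.exp_log hy0).symm
          _ ≤ _ := Real.exp_le_exp.2 hll
      have hyl : y ≤ Real.log (Real.log X) := by rw [hy]; exact hX₄ X (by omega)
      obtain ⟨hx1, hx2⟩ := hX₅ X (by omega)
      obtain ⟨s', hs'⟩ : ∃ s' : ℕ, s' = ⌈y⌉₊ + B * s := ⟨_, rfl⟩
      have hc1 : (⌈y⌉₊ : ℝ) < y + 1 := Nat.ceil_lt_add_one hy0.le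
      have hBs1 : 1 * s ≤ B * s := Nat.mul_le_mul_right s hB
      have hs'r : (s' : ℝ) ≤ y + 1 + B * s := by
        rw [hs']; push_cast; linarith
      have hB0 : (0 : ℝ) ≤ B := Nat.cast_nonneg _
      have hs'2 : (s' : ℝ) ≤ (B + 1) * Real.log (Real.log X) + 1 := by
        have h1 : (B : ℝ) * s ≤ B * Real.log (Real.log X) :=
          mul_le_mul_of_nonneg_left (by linarith) hB0
        linarith
      have hs'4 : (s' : ℝ) ^ 4 ≤ Real.log X :=
        (pow_le_pow_left₀ (Nat.cast_nonneg _) hs'2 4).trans hx1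
      have hs'1 : (1 : ℝ) ≤ s' := by exact_mod_cast (by omega : 1 ≤ s')
      have hyss : y ≤ s' := by
        have h1 : y ≤ ⌈y⌉₊ := Nat.le_ceil _
        have h2 : ((⌈y⌉₊ : ℕ) : ℝ) ≤ s' := by exact_mod_cast (by omega : ⌈y⌉₊ ≤ s')
        linarith
      -- the number of the levels
      obtain ⟨hn1, hn2⟩ := hs₁' s (by omega)
      have hkk : ((B * s' : ℕ) : ℝ) ≤ Real.exp (2 * s) := by
        refine le_trans ?_ hn2
        push_cast
        apply mul_le_mul_of_nonneg_left _ hB0
        linarith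
      have hBs' : 0 < B * s' := Nat.mul_pos (by omega) (by omega)
      have hlk : Real.log ((B * s' : ℕ) : ℝ) ≤ 2 ^ (s / B) := by
        refine le_trans ?_ hn1
        rw [Real.log_le_iff_le_exp (by exact_mod_cast hBs')]
        exact hkk
      have hss' : s' ≤ B * s' := Nat.le_mul_of_pos_left _ (by omega)
      -- the scales are below the top
      have htop : ((B * s' : ℕ) : ℝ) ≤ 2 * Real.log X ^ (24 / 25 : ℝ) := by
        have h1 : 1 ≤ Real.log X := by linarith
        have h2 := top_le hs'1 hs'4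
        have h3 : (s' : ℝ) ≤ Real.log X ^ (1 / 4 : ℝ) := by
          calc (s' : ℝ) = ((s' : ℝ) ^ 4) ^ (1 / 4 : ℝ) := by
                rw [← Real.rpow_natCast, ← Real.rpow_mul (Nat.cast_nonneg _)]
                norm_num
            _ ≤ Real.log X ^ (1 / 4 : ℝ) :=
                Real.rpow_le_rpow (by positivity) hs'4 (by norm_num)
        have h4 : (B : ℝ) * s' ≤ Real.log X ^ (1 / 2 : ℝ) * Real.log X ^ (1 / 4 : ℝ) :=
          mul_le_mul hx2 h3 (Nat.cast_nonneg _) (Real.rpow_nonneg hlog.le _)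
        rw [← Real.rpow_add hlog] at h4
        have h5 : Real.log X ^ (1 / 2 + 1 / 4 : ℝ) ≤ Real.log X ^ (24 / 25 : ℝ) :=
          Real.rpow_le_rpow_of_exponent_le h1 (by norm_num)
        have h6 : 0 ≤ Real.log X ^ (24 / 25 : ℝ) := Real.rpow_nonneg hlog.le _
        push_cast
        linarith
      have htop1 : (s' : ℝ) ≤ 2 * Real.log X ^ (24 / 25 : ℝ) := by
        refine le_trans ?_ htop
        exact_mod_cast hss'
      have hB1 := base_mono lam _ _ X _ _ hX3 hm1 hBase
      have hEE := hE s X (B * s') lam (by omega) (by omega) hL hlk hB1 (B * s)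
      have h1 := hEE s' le_rfl (by omega) hss' htop1
      have h2 := hEE (B * s') le_rfl
        ((show B * s ≤ s' by omega).trans hss') le_rfl htop
      have h3 := hlnk s' X lam (by omega) hL.pm (by linarith)
      rw [show 2 * (e₁ / 2) = e₁ by ring] at h3
      have h4 := ih2 s' X lam (by omega) (by rw [← hy]; exact hyss) hs'4 hL h3
      linarith

end Pool.Agent.H6.G9
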