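import Pool.Agent.H6.G9.Targets

/-!
# Theorem (H) for all iterated logarithms, MP_c59857_nt: statements

The chain of the stages: each stage of theorem (H) covers the scales up to the exponential of its
base; the losses do not depend on the number of the exponentials.
-/

set_option autoImplicit false

namespace Pool.Agent.H6.G9

open Finset Pool.Agent.H6.N4D Pool.Agent.H93 Pool.Agent.H93.GS

/-- EUS. The loss of energy on a stage: `B` is absolute, `e` depends only on `ε`. -/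
def T_EUS : Prop := ∃ B : ℕ, 1 ≤ B ∧ ∀ ε : ℝ, 0 < ε → ∃ e : ℝ, 0 < e ∧ ∀ th : ℝ, 0 < th → th ≤ 1 →
  ∀ R : ℕ, ∃ s₀ X₀ : ℕ, ∀ (s X kk : ℕ) (lam : ℕ → ℝ), s₀ ≤ s → X₀ ≤ X → Lio lam →
    Real.log kk ≤ 2 ^ (s / B) → EB.Base lam R (2 ^ s) e X →
    ∀ k₀ k : ℕ, B * s ≤ k₀ → k₀ ≤ k → k ≤ kk → (k : ℝ) ≤ 2 * Real.log X ^ (24 / 25 : ℝ) →
      te th lam X k₀ - ε ≤ te th lam X k

/-- QT. Structure at the scale `2 ^ s` and energy near one at the scale `2 ^ (B s)` is impossible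
if `s` is at least an iterated logarithm of `X`. -/
def T_QT : Prop := ∃ B : ℕ, 1 ≤ B ∧ ∀ T : ℕ, 2 ≤ T → ∃ e : ℝ, 0 < e ∧ e ≤ 1 ∧ ∀ th : ℝ, 0 < th →
  th ≤ 1 → ∀ R : ℕ, ∃ s₀ : ℕ, ∀ (s X : ℕ) (lam : ℕ → ℝ), s₀ ≤ s → Real.log^[T] (X : ℝ) ≤ s →
    (s : ℝ) ^ 4 ≤ Real.log X → Lio lam → EB.Base lam R (2 ^ s) e X →
      te th lam X (B * s) < 1 - e

/-- G9T. The final theorem: for every iterated logarithm an absolute constant. -/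
def T_G9T : Prop := ∀ T : ℕ, ∃ (c : ℝ) (K : ℕ), 0 < c ∧ 1 ≤ K ∧ ∀ R : ℕ, ∃ H₀ : ℕ, ∀ (X H : ℕ)
  (lam : ℕ → ℝ), H₀ ≤ H → Real.log^[T] (X : ℝ) ≤ H → H ^ K ≤ X → Lio lam →
  ∀ (b : ℕ → ℕ → ℂ) (β : ℕ → ℕ → ℝ), (∀ n r, ‖b n r‖ ≤ 1) →
    c * Real.log X < EB.lg X (fun n => (∑ m ∈ Ioc n (n + H),
      ‖(lam m : ℂ) - ∑ r ∈ range R, b n r * ee (β n r * m)‖ ^ 2) / H)

end Pool.Agent.H6.G9
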