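import Pool.Agent.H6.G9.Targets
import Pool.Agent.H72.GM2.Chi

/-!
# Theorem (H) for all functions which agree on the squarefree numbers with the product of the
Möbius function and a Dirichlet character
-/

set_option autoImplicit false

namespace Pool.Agent.H6.G9

open Finset Pool.Agent.H6.N4D Pool.Agent.H93 Pool.Agent.H72.GM2

theorem hmc (hG : T_G99) (q : ℕ) (hq : 1 ≤ q) : ∃ (c : ℝ) (K : ℕ), 0 < c ∧ 1 ≤ K ∧ ∀ R : ℕ,
    ∃ H₀ : ℕ, ∀ (X H : ℕ) (f : ℕ → ℂ), H₀ ≤ H → Real.log (Real.log X) ^ K ≤ H → H ^ K ≤ X →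
    PC q f → ∀ (b : ℕ → ℕ → ℂ) (β : ℕ → ℕ → ℝ), (∀ n r, ‖b n r‖ ≤ 1) →
      c * Real.log X < EB.lg X (er f (fun n m => ∑ r ∈ range R, b n r * ee (β n r * m)) H) := by
  obtain ⟨c, K, hc, hK, hG⟩ := hG
  obtain ⟨j, hj⟩ : ∃ j : ℕ, 1 / c ≤ j := exists_nat_ge _
  have hj0 : (0 : ℝ) < j := lt_of_lt_of_le (by positivity) hj
  have hj1 : 1 ≤ j := by exact_mod_cast hj0
  have hjc : 1 / (j : ℝ) ≤ c := by
    rw [div_le_iff₀ hj0]
    have := mul_le_mul_of_nonneg_left hj hc.le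
    rwa [mul_one_div, div_self hc.ne'] at this
  obtain ⟨J, N, C, hJ, hT⟩ := Tr_PC q hq j hj1
  have hJ0 : (0 : ℝ) < J := by exact_mod_cast hJ
  refine ⟨1 / J, max K C, by positivity, le_trans hK (le_max_left _ _), fun R => ?_⟩
  obtain ⟨H₀, hG⟩ := hG (N * R)
  obtain ⟨H₁, hH₁⟩ : ∃ H₁, H₁ = H₀ + C + 3 := ⟨_, rfl⟩
  refine ⟨H₁, fun X H f hH hH1 hHX hf b β hb => ?_⟩
  by_contra hcon
  push Not at hcon
  have hH1' : 1 ≤ H := by omega
  have hHK : H ^ K ≤ X := (Nat.pow_le_pow_right hH1' (le_max_left _ _)).trans hHX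
  have hHC : H ^ C ≤ X := (Nat.pow_le_pow_right hH1' (le_max_right _ _)).trans hHX
  obtain ⟨G, hG1, hG2⟩ := hT R H X f
    (fun n m => ∑ r ∈ range R, b n r * ee (β n r * m)) hf
    (fun n => ⟨b n, β n, hb n, fun m => rfl⟩) (by omega) hHC hcon
  choose b' β' hb' hG3 using hG1
  have hlX : 0 ≤ Real.log X := Real.log_natCast_nonneg X
  -- the power of the double logarithm
  have hll : Real.log (Real.log X) ^ K ≤ H := by
    rcases le_total 1 (Real.log (Real.log X)) with h1 | h1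
    · exact (pow_le_pow_right₀ h1 (le_max_left _ _)).trans hH1
    · have hX3 : 3 ≤ X := by
        have : 3 ≤ H := by omega
        calc 3 ≤ H := this
          _ = H ^ 1 := (pow_one H).symm
          _ ≤ H ^ K := Nat.pow_le_pow_right hH1' hK
          _ ≤ X := hHK
      have h2 : 1 ≤ Real.log X := by
        have h3 : (3 : ℝ) ≤ X := by exact_mod_cast hX3
        rw [Real.le_log_iff_exp_le (by linarith)]
        have := Real.exp_one_lt_d9
        linarith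
      have h3 : 0 ≤ Real.log (Real.log X) := Real.log_nonneg h2
      calc Real.log (Real.log X) ^ K ≤ 1 := pow_le_one₀ h3 h1
        _ ≤ H := by exact_mod_cast hH1'
  have h2 := hG X H Pool.Agent.H24.EG.lio (by omega) hll hHK Pool.Agent.H24.EG.lio_Lio b' β' hb'
  have h3 : EB.lg X (fun n => (∑ m ∈ Ioc n (n + H),
      ‖((Pool.Agent.H24.EG.lio m : ℝ) : ℂ) - ∑ r ∈ range (N * R),
        b' n r * ee (β' n r * m)‖ ^ 2) / H) = EB.lg X (er lb G H) := by
    unfold er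
    congr 1
    funext n
    congr 1
    apply sum_congr rfl
    intro m _
    rw [hG3]
    congr 3
    unfold Pool.Agent.H24.EG.lio lb
    split_ifs <;> push_cast <;> rfl
  rw [h3] at h2
  have h4 := mul_le_mul_of_nonneg_right hjc hlX
  linarith

/-- Theorem (H) in plain words. -/
theorem plain_hmc (hG : T_G99) (q : ℕ) [NeZero q] : ∃ (c : ℝ) (K : ℕ), 0 < c ∧ ∀ R : ℕ,
    ∃ H₀ : ℕ, ∀ H X : ℕ, H₀ ≤ H → Real.log (Real.log X) ^ K ≤ H → H ^ K ≤ X →
    ∀ (χ : DirichletCharacter ℂ q) (f : ℕ → ℂ), (∀ n, ‖f n‖ ≤ 1) →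
    (∀ n, Squarefree n → f n = χ n * ArithmeticFunction.moebius n) →
    ∀ (b : ℕ → ℕ → ℂ) (β : ℕ → ℕ → ℝ), (∀ n r, ‖b n r‖ ≤ 1) →
      c * Real.log X < ∑ n ∈ Icc 1 X, 1 / (n : ℝ) * ((∑ h ∈ Icc 1 H,
        ‖f (n + h) - ∑ r ∈ range R,
          b n r * Complex.exp (2 * Real.pi * Complex.I * (β n r * h))‖ ^ 2) / H) := by
  obtain ⟨c, K, hc, _, h⟩ := hmc hG q NeZero.one_le
  refine ⟨c, K, hc, fun R => ?_⟩
  obtain ⟨H₀, h⟩ := h R
  refine ⟨H₀, fun H X hH hH1 hX χ f hf hs b β hb => ?_⟩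
  have h4 := h X H f hH hH1 hX ⟨hf, χ, fun n hn => by rw [hs n hn]; rfl⟩
    (fun n r => b n r * ee (-(β n r * n))) β (fun n r => by
      rw [norm_mul, norm_ee, mul_one]
      exact hb n r)
  refine lt_of_lt_of_le h4 (le_of_eq ?_)
  unfold EB.lg
  refine Finset.sum_congr rfl fun n _ => ?_
  unfold er
  beta_reduce
  rw [win_plain f R H n (b n) (β n), one_div, inv_mul_eq_div]

end Pool.Agent.H6.G9
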