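import Pool.Agent.H6.G9.Targets3
import Pool.Agent.H93.G9.Sub

/-!
# Theorem (H0), MP_c59857_nt: absolute constants for all lengths, the assembly
-/

set_option autoImplicit false

namespace Pool.Agent.H6.G9

open Finset Pool.Agent.H6.N4D Pool.Agent.H93 Pool.Agent.H93.GS Filter

/-- the third logarithm is small against the second -/
lemma ev_len3 (B d : ℕ) : ∃ X₀ : ℕ, ∀ X : ℕ, X₀ ≤ X →
    (16 : ℝ) ^ (B * (⌈Real.log^[3] (X : ℝ)⌉₊ + d)) ≤ Real.log X ∧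
    ((⌈Real.log^[3] (X : ℝ)⌉₊ + d : ℕ) : ℝ) ^ 4 ≤ Real.log X := by
  have h1 : Tendsto (fun X : ℕ => Real.log (Real.log (X : ℝ))) atTop atTop :=
    Real.tendsto_log_atTop.comp (Real.tendsto_log_atTop.comp tendsto_natCast_atTop_atTop)
  have h2 := (isLittleO_log_rpow_atTop (r := 1 / 8) (by norm_num)).def
    (show (0 : ℝ) < 1 / 2 by norm_num)
  have h3 : ∀ᶠ y : ℝ in atTop, 2 * (3 * (B : ℝ) + 1 + d) ≤ y ^ (1 / 8 : ℝ) :=
    (tendsto_rpow_atTop (by norm_num : (0 : ℝ) < 1 / 8)).eventually_ge_atTop _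
  have h4 : Tendsto (fun X : ℕ => Real.log (X : ℝ)) atTop atTop :=
    Real.tendsto_log_atTop.comp tendsto_natCast_atTop_atTop
  obtain ⟨X₀, hX₀⟩ := eventually_atTop.1 ((h1.eventually (h2.and (h3.and
    (eventually_ge_atTop 1)))).and (h4.eventually_ge_atTop 1))
  refine ⟨X₀, fun X hX => ?_⟩
  obtain ⟨⟨h5, h6, h7⟩, h8⟩ := hX₀ X hX
  have hit : Real.log^[3] (X : ℝ) = Real.log (Real.log (Real.log (X : ℝ))) := rfl
  rw [hit]
  obtain ⟨L, hL⟩ : ∃ L : ℝ, L = Real.log (X : ℝ) := ⟨_, rfl⟩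
  rw [← hL] at h5 h6 h7 h8 ⊢
  have hLpos : 0 < L := by linarith
  obtain ⟨y, hy⟩ : ∃ y : ℝ, y = Real.log L := ⟨_, rfl⟩
  rw [← hy] at h5 h6 h7 ⊢
  have hy0 : 0 ≤ Real.log y := Real.log_nonneg h7
  obtain ⟨z, hz⟩ : ∃ z : ℝ, z = y ^ (1 / 8 : ℝ) := ⟨_, rfl⟩
  rw [← hz] at h5 h6
  have hz0 : 0 ≤ z := by rw [hz]; exact Real.rpow_nonneg (by linarith) _
  have hz8 : z ^ 8 = y := by
    rw [hz, ← Real.rpow_natCast, ← Real.rpow_mul (by linarith)]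
    norm_num
  have hB0 : (0 : ℝ) ≤ B := Nat.cast_nonneg _
  have hs0 : (0 : ℝ) ≤ d := Nat.cast_nonneg _
  rw [Real.norm_of_nonneg hy0, Real.norm_of_nonneg hz0] at h5
  obtain ⟨n, hn⟩ : ∃ n : ℕ, n = ⌈Real.log y⌉₊ + d := ⟨_, rfl⟩
  rw [← hn]
  have hnz : (n : ℝ) ≤ z := by
    have h9 : (⌈Real.log y⌉₊ : ℝ) < Real.log y + 1 := Nat.ceil_lt_add_one hy0
    rw [hn]
    push_cast
    linarith
  have hz1 : 1 ≤ z := by linarith
  have hyL : y ≤ L := by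
    rw [hy]
    have := Real.log_le_sub_one_of_pos hLpos
    linarith
  constructor
  · rw [← Real.log_le_log_iff (by positivity) hLpos, Real.log_pow, ← hy]
    have hl16 : Real.log 16 ≤ 3 := by
      have h9 : Real.log 16 = 4 * Real.log 2 := by
        rw [show (16 : ℝ) = 2 ^ 4 by norm_num, Real.log_pow]
        norm_num
      rw [h9]
      have := Real.log_two_lt_d9
      linarith
    push_cast
    calc (B : ℝ) * n * Real.log 16 ≤ B * n * 3 := by gcongr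
      _ ≤ B * z * 3 := by gcongr
      _ ≤ (3 * (B : ℝ)) * z := by linarith
      _ ≤ z * z := by
        apply mul_le_mul_of_nonneg_right _ hz0
        linarith
      _ = z ^ 2 := by ring
      _ ≤ z ^ 8 := pow_le_pow_right₀ hz1 (by norm_num)
      _ = y := hz8
  · calc (n : ℝ) ^ 4 ≤ z ^ 4 := pow_le_pow_left₀ (Nat.cast_nonneg _) hnz 4
      _ ≤ z ^ 8 := pow_le_pow_right₀ hz1 (by norm_num)
      _ = y := hz8
      _ ≤ L := hyL

theorem pf_GH0 (hE : T_EU1) (hQ : T_QT) : T_GH0 := by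
  obtain ⟨B₂, hB₂, hQ⟩ := hQ
  obtain ⟨e₂, he₂, he₂1, hQ⟩ := hQ 3 (by norm_num)
  obtain ⟨B₁, hB₁, hE⟩ := hE
  obtain ⟨e₁, he₁, hE⟩ := hE (e₂ / 4) (by positivity)
  obtain ⟨c, hc⟩ : ∃ c : ℝ, c = min (e₁ / 3) (e₂ / 24) := ⟨_, rfl⟩
  have hc0 : 0 < c := by rw [hc]; exact lt_min (by positivity) (by positivity)
  have hc1 : 3 * c ≤ e₁ := by
    have : c ≤ e₁ / 3 := by rw [hc]; exact min_le_left _ _
    linarith
  have hc2 : 3 * c ≤ e₂ / 8 := by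
    have : c ≤ e₂ / 24 := by rw [hc]; exact min_le_right _ _
    linarith
  obtain ⟨K, hK⟩ : ∃ K : ℕ, K = 1 + ⌈2 / c⌉₊ := ⟨_, rfl⟩
  refine ⟨c, K, hc0, by omega, fun R => ?_⟩
  obtain ⟨th, hth⟩ : ∃ th : ℝ, th = e₂ / (16 * ((R : ℝ) + 1)) := ⟨_, rfl⟩
  have hR0 : (0 : ℝ) ≤ R := Nat.cast_nonneg _
  have hth0 : 0 < th := by rw [hth]; positivity
  have hth1 : th ≤ 1 := by
    rw [hth, div_le_one (by positivity)]
    linarith
  have hthR : 2 * th * R ≤ e₂ / 8 := by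
    rw [hth, show 2 * (e₂ / (16 * ((R : ℝ) + 1))) * R = (e₂ / 8) * (R / ((R : ℝ) + 1)) by
      field_simp; ring]
    have h2 : (R : ℝ) / ((R : ℝ) + 1) ≤ 1 := by
      rw [div_le_one (by positivity)]
      linarith
    calc e₂ / 8 * ((R : ℝ) / ((R : ℝ) + 1)) ≤ e₂ / 8 * 1 :=
          mul_le_mul_of_nonneg_left h2 (by positivity)
      _ = e₂ / 8 := mul_one _
  obtain ⟨s₀, hE⟩ := hE th hth0 hth1 R
  obtain ⟨X₀, hE⟩ := hE s₀ le_rfl
  obtain ⟨R', X₁, hlnk⟩ := lnk2 th (e₂ / 2) hth0 (by positivity)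
  obtain ⟨s₂, hQ⟩ := hQ th hth0 hth1 R'
  obtain ⟨X₂, hX₂⟩ := ev_len3 (B₁ + B₂) (s₂ + B₁ * s₀)
  refine ⟨X₀ + X₁ + X₂ + ⌈Real.exp (2 / c)⌉₊ + 3 + 2 * 2 ^ (B₁ * s₀),
    fun X H lam hH hHX hL b β hb => ?_⟩
  by_contra hcon
  rw [not_lt] at hcon
  have hBase : EB.Base lam R H c X := ⟨b, β, hb, hcon⟩
  have hH1 : 1 ≤ H := by omega
  have hHX1 : H ≤ X := by
    calc H = H ^ 1 := (pow_one H).symm
      _ ≤ H ^ K := Nat.pow_le_pow_right hH1 (by omega)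
      _ ≤ X := hHX
  have hX3 : 3 ≤ X := by omega
  have hX3' : (3 : ℝ) ≤ X := by exact_mod_cast hX3
  have hH0' : (0 : ℝ) < H := by exact_mod_cast hH1
  have hl1 : ∀ n, |lam n| ≤ 1 := by
    intro n
    rcases hL.pm n with h | h <;> rw [h] <;> norm_num
  -- the boundary
  have hhs : EB.hs H ≤ c * Real.log X := by
    have h1 : EB.hs H ≤ 1 + Real.log H := EB.hs_le H
    have h2 : K * Real.log H ≤ Real.log X := by
      rw [← Real.log_pow]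
      apply Real.log_le_log (by positivity)
      exact_mod_cast hHX
    have h3 : 2 / c ≤ K := by
      calc 2 / c ≤ ⌈2 / c⌉₊ := Nat.le_ceil _
        _ ≤ K := by
          have : ⌈2 / c⌉₊ ≤ K := by omega
          exact_mod_cast this
    have hlH0 : 0 ≤ Real.log H := Real.log_natCast_nonneg H
    have h4 : 2 / c * Real.log H ≤ Real.log X :=
      (mul_le_mul_of_nonneg_right h3 hlH0).trans h2
    have h5 : 2 / c ≤ Real.log X := by
      rw [Real.le_log_iff_exp_le (by linarith)]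
      calc Real.exp (2 / c) ≤ ⌈Real.exp (2 / c)⌉₊ := Nat.le_ceil _
        _ ≤ X := by
          have : ⌈Real.exp (2 / c)⌉₊ ≤ X := by omega
          exact_mod_cast this
    rw [div_mul_eq_mul_div, div_le_iff₀ hc0] at h4
    rw [div_le_iff₀ hc0] at h5
    linarith
  -- the bounded base
  have hlen : 2 * 2 ^ (B₁ * s₀) ≤ H := by omega
  have hlen2 : 2 * 2 ^ s₀ ≤ H := by
    have : 2 ^ s₀ ≤ 2 ^ (B₁ * s₀) :=
      Nat.pow_le_pow_right (by norm_num) (Nat.le_mul_of_pos_left _ (by omega))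
    omega
  have hA1 : EB.Base lam R (2 ^ (B₁ * s₀)) (3 * c) X :=
    Pool.Agent.H93.G9.subw1 lam R H (2 ^ (B₁ * s₀)) X c Nat.one_le_two_pow hlen hl1 hBase hhs
  have hA2 : EB.Base lam R (2 ^ s₀) e₁ X :=
    base_mono lam _ _ X _ _ hX3 hc1
      (Pool.Agent.H93.G9.subw1 lam R H (2 ^ s₀) X c Nat.one_le_two_pow hlen2 hl1 hBase hhs)
  have hlow := pf_LOW th (3 * c) R (B₁ * s₀) X lam hth0 (by positivity) hX3 hL.pm hA1
  -- the second base
  obtain ⟨hx1, hx2⟩ := hX₂ X (by omega)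
  obtain ⟨s, hs⟩ : ∃ s : ℕ, s = ⌈Real.log^[3] (X : ℝ)⌉₊ + (s₂ + B₁ * s₀) := ⟨_, rfl⟩
  rw [← hs] at hx1 hx2
  have hks : B₁ * s₀ ≤ s := by omega
  have hsB : s ≤ B₂ * s := Nat.le_mul_of_pos_left _ (by omega)
  have hp1 : (16 : ℝ) ^ (B₂ * s) ≤ Real.log X := by
    refine le_trans (pow_le_pow_right₀ (by norm_num) ?_) hx1
    rw [add_mul]
    omega
  have hp2 : (16 : ℝ) ^ s ≤ Real.log X :=
    (pow_le_pow_right₀ (by norm_num) hsB).trans hp1
  have hEE := hE X lam (by omega) hL hA2 (B₁ * s₀)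
  have h1 := hEE s le_rfl hks hp2
  have h2 := hEE (B₂ * s) le_rfl (hks.trans hsB) hp1
  have h3 := hlnk s X lam (by omega) hL.pm (by linarith)
  rw [show 2 * (e₂ / 2) = e₂ by ring] at h3
  have hll : Real.log^[3] (X : ℝ) ≤ s := by
    calc Real.log^[3] (X : ℝ) ≤ ⌈Real.log^[3] (X : ℝ)⌉₊ := Nat.le_ceil _
      _ ≤ s := by
        have : ⌈Real.log^[3] (X : ℝ)⌉₊ ≤ s := by omega
        exact_mod_cast this
  have h4 := hQ s X lam (by omega) hll hx2 hL h3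
  linarith

end Pool.Agent.H6.G9
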