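import Pool.Agent.H6.G9.Targets

/-!
# The energy at the top is small
-/

set_option autoImplicit false

namespace Pool.Agent.H6.G9

open Finset Pool.Agent.H6.N4D Pool.Agent.H93 Pool.Agent.H93.GS Pool.Agent.H6.GS2

theorem pf_TOP (hE : T_E3R) (hG : T_PGN) : T_TOP := by
  intro th c hth hth1 hc
  obtain ⟨ε, C, D, X₁, hε, hC, hD, h3⟩ := hE th c hth hth1 hc
  obtain ⟨X₂, h4⟩ := hG th ε C D hth hth1 hε hC hD
  -- the lower bound for `a`
  have ht : Filter.Tendsto (fun X : ℕ => Real.log X ^ (9 / 20 : ℝ)) Filter.atTop Filter.atTop :=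
    (tendsto_rpow_atTop (by norm_num)).comp
      (Real.tendsto_log_atTop.comp tendsto_natCast_atTop_atTop)
  obtain ⟨X₃, hX₃⟩ := Filter.eventually_atTop.1 (ht.eventually_ge_atTop (1 / C))
  refine ⟨X₁ + X₂ + X₃ + 3, fun X lam hX hl => ?_⟩
  obtain ⟨a, h5, h6, h7, h8⟩ := h4 X lam (by omega) hl
  have h9 := h3 X a lam (by omega) hl h5 h6 h7 h8
  have hY : 0 < Real.log X := Real.log_pos (by
    have : 3 ≤ X := by omega
    exact_mod_cast lt_of_lt_of_le (by norm_num) this)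
  refine ⟨a, ?_, ?_, h9⟩
  · refine le_trans ?_ h5
    have h10 := hX₃ X (by omega)
    have h11 : Real.log X ^ (19 / 20 : ℝ) =
        Real.log X ^ (9 / 20 : ℝ) * Real.log X ^ (1 / 2 : ℝ) := by
      rw [← Real.rpow_add hY]
      norm_num
    rw [h11, ← mul_assoc]
    have h12 : 1 ≤ C * Real.log X ^ (9 / 20 : ℝ) := by
      have := mul_le_mul_of_nonneg_left h10 hC.le
      rwa [mul_one_div, div_self hC.ne'] at this
    have h13 : 0 ≤ Real.log X ^ (1 / 2 : ℝ) := by positivity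
    nlinarith
  · refine le_trans ?_ h6
    have h14 : (1 : ℝ) ≤ D := by exact_mod_cast hD
    have h15 : (0 : ℝ) ≤ a := Nat.cast_nonneg _
    nlinarith

end Pool.Agent.H6.G9
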